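import Mathlib

open MeasureTheory Topology Filter
open scoped ENNReal Pointwise symmDiff

namespace Pool.Agent.Results.MP_d52620_an.DihedralCounterexample

/-- A (discrete) group is amenable: it carries a left-invariant finitely additive
probability measure defined on all its subsets. -/
def IsAmenable (G : Type) [Group G] : Prop :=
  ∃ m : Set G → ℝ≥0∞, m Set.univ = 1 ∧
    (∀ s t : Set G, Disjoint s t → m (s ∪ t) = m s + m t) ∧
    ∀ (g : G) (s : Set G), m (g • s) = m s

section Defs

variable {G M : Type} [Group G] [TopologicalSpace M] [MulAction G M]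

/-- `c` is a cocycle over the action: `c(gh,x) = c(g,hx) + c(h,x)`. -/
def IsCocycle (c : G → C(M, ℝ)) : Prop :=
  ∀ (g h : G) (x : M), c (g * h) x = c g (h • x) + c h x

/-- The coboundary `(δu)(g,x) = u(gx) - u(x)`. -/
def coboundary [ContinuousConstSMul G M] (u : C(M, ℝ)) (g : G) : C(M, ℝ) where
  toFun x := u (g • x) - u x
  continuous_toFun := by fun_prop

/-- `c` lies in the closure of the coboundaries for the norm
`‖c‖ = max_{s ∈ S} ‖c(s,·)‖_sup`. -/
def InClosureOfCoboundaries [CompactSpace M] [ContinuousConstSMul G M]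
    (S : Finset G) (c : G → C(M, ℝ)) : Prop :=
  ∀ ε : ℝ, 0 < ε → ∃ u : C(M, ℝ), ∀ s ∈ S, ‖c s - coboundary u s‖ < ε

end Defs

/-- The infinite dihedral group. -/
abbrev D : Type := DihedralGroup 0

/-- index of an element of `D`. -/
def idx : D → ℤ
  | .r i => i
  | .sr i => i

/-- sign of an element of `D`. -/
def sgn : D → ℤ
  | .r _ => 1
  | .sr _ => -1

/-- The Foelner sets. -/
def F (n : ℕ) : Set D := {g | |idx g| ≤ n}

/-- All elements with index in `[a, b]`. -/
noncomputable def box (a b : ℤ) : Finset D :=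
  (Finset.Icc a b).image (fun i : ℤ => (DihedralGroup.r (i : ZMod 0) : D)) ∪
  (Finset.Icc a b).image (fun i : ℤ => (DihedralGroup.sr (i : ZMod 0) : D))

lemma mem_box (a b : ℤ) (g : D) : g ∈ box a b ↔ a ≤ idx g ∧ idx g ≤ b := by
  unfold box
  rw [Finset.mem_union, Finset.mem_image, Finset.mem_image]
  constructor
  · rintro (⟨i, hi, rfl⟩ | ⟨i, hi, rfl⟩) <;> exact Finset.mem_Icc.1 hi
  · intro h
    cases g with
    | r i => exact Or.inl ⟨i, Finset.mem_Icc.2 h, rfl⟩
    | sr i => exact Or.inr ⟨i, Finset.mem_Icc.2 h, rfl⟩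

lemma card_box_le (a b : ℤ) : (box a b).card ≤ 2 * (b + 1 - a).toNat := by
  unfold box
  refine (Finset.card_union_le _ _).trans ?_
  have h1 := Finset.card_image_le (s := Finset.Icc a b)
    (f := fun i : ℤ => (DihedralGroup.r (i : ZMod 0) : D))
  have h2 := Finset.card_image_le (s := Finset.Icc a b)
    (f := fun i : ℤ => (DihedralGroup.sr (i : ZMod 0) : D))
  rw [Int.card_Icc] at h1 h2
  omega

lemma le_card_box (a b : ℤ) : (b + 1 - a).toNat ≤ (box a b).card := by
  have h1 : ((Finset.Icc a b).image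
      (fun i : ℤ => (DihedralGroup.r (i : ZMod 0) : D))).card = (b + 1 - a).toNat := by
    rw [Finset.card_image_of_injective, Int.card_Icc]
    intro i j hij
    exact DihedralGroup.r.inj hij
  rw [← h1]
  exact Finset.card_le_card Finset.subset_union_left

lemma idx_one : idx 1 = 0 := rfl

lemma sgn_one : sgn 1 = 1 := rfl

lemma idx_mul (g h : D) : idx (g * h) = idx h + sgn h * idx g := by
  rcases g with i | i <;> rcases h with j | j
  · show (i : ℤ) + j = j + 1 * i
    ring
  · show (j : ℤ) - i = j + (-1) * i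
    ring
  · show (i : ℤ) + j = j + 1 * i
    ring
  · show (j : ℤ) - i = j + (-1) * i
    ring

lemma sgn_mul (g h : D) : sgn (g * h) = sgn g * sgn h := by
  rcases g with i | i <;> rcases h with j | j <;> rfl

lemma sgn_eq (g : D) : sgn g = 1 ∨ sgn g = -1 := by
  rcases g with i | i
  · exact Or.inl rfl
  · exact Or.inr rfl

lemma sgn_mul_self (g : D) : sgn g * sgn g = 1 := by
  rcases sgn_eq g with h | h <;> rw [h] <;> norm_num

lemma eq_one_of {g : D} (h0 : idx g = 0) (h1 : sgn g = 1) : g = 1 := by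
  rcases g with i | i
  · have : (i : ℤ) = 0 := h0
    show DihedralGroup.r i = DihedralGroup.r 0
    congr 1
  · have : (-1 : ℤ) = 1 := h1
    omega

lemma F_eq_box (n : ℕ) : F n = (box (-n) n : Finset D) := by
  ext g
  simp only [F, Set.mem_ofPred_eq, Finset.mem_coe, mem_box, abs_le]

lemma symmDiff_subset (g : D) (n : ℕ) :
    (g • F n) ∆ F n ⊆ (box (-n - |idx g|) (-n + |idx g|) ∪ box (n - |idx g|) (n + |idx g|) :
      Finset D) := by
  intro x hx
  rw [Finset.mem_coe, Finset.mem_union, mem_box, mem_box]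
  rw [Set.mem_symmDiff] at hx
  rw [Set.mem_smul_set_iff_inv_smul_mem, smul_eq_mul] at hx
  have hidx := idx_mul g (g⁻¹ * x)
  have he := sgn_eq (g⁻¹ * x)
  rw [mul_inv_cancel_left] at hidx
  simp only [F, Set.mem_ofPred_eq] at hx
  have h1 : |idx (g⁻¹ * x) - idx x| ≤ |idx g| := by
    rw [hidx]
    rcases he with he | he <;> rw [he] <;> simp
  generalize idx (g⁻¹ * x) = a at *
  generalize idx x = b at *
  generalize |idx g| = k at *
  simp only [abs_le, not_and_or, not_le] at *
  omega


lemma isAmenable_D : IsAmenable D := by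
  let _ : MeasurableSpace D := ⊤
  have _ : DiscreteMeasurableSpace D := ⟨fun _ => trivial⟩
  have hF : IsFoelner D (Measure.count : Measure D) atTop F := by
    refine ⟨Eventually.of_forall fun n => trivial, Eventually.of_forall fun n => ?_,
      Eventually.of_forall fun n => ?_, fun g => ?_⟩
    · rw [F_eq_box, Measure.count_apply_finset]
      have h := le_card_box (-(n : ℤ)) n
      have : 0 < (box (-(n : ℤ)) n).card := by omega
      exact_mod_cast this.ne'
    · rw [F_eq_box, Measure.count_apply_finset]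
      exact ENNReal.natCast_ne_top _
    · have hbound : ∀ n : ℕ, (Measure.count ((g • F n) ∆ F n) / Measure.count (F n) : ℝ≥0∞) ≤
          ((4 * (2 * (idx g).natAbs + 1) : ℕ) : ℝ≥0∞) * ((n : ℝ≥0∞))⁻¹ := by
        intro n
        rw [div_eq_mul_inv]
        refine mul_le_mul' ?_ ?_
        · refine (measure_mono (symmDiff_subset g n)).trans ?_
          rw [Measure.count_apply_finset]
          refine Nat.cast_le.2 ((Finset.card_union_le _ _).trans ?_)
          have h1 := card_box_le (-n - |idx g|) (-n + |idx g|)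
          have h2 := card_box_le (n - |idx g|) (n + |idx g|)
          have h3 : |idx g| = (idx g).natAbs := Int.abs_eq_natAbs _
          omega
        · rw [ENNReal.inv_le_inv, F_eq_box, Measure.count_apply_finset]
          have h := le_card_box (-(n : ℤ)) n
          refine Nat.cast_le.2 (le_trans ?_ h)
          omega
      refine tendsto_of_tendsto_of_tendsto_of_le_of_le tendsto_const_nhds ?_
        (fun n => bot_le) hbound
      have h := ENNReal.Tendsto.const_mul (a := ((4 * (2 * (idx g).natAbs + 1) : ℕ) : ℝ≥0∞))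
        ENNReal.tendsto_inv_nat_nhds_zero (Or.inr (ENNReal.natCast_ne_top _))
      simpa using h
  obtain ⟨m, h1, h2, h3⟩ := hF.amenable
  exact ⟨m, h1, fun s t hst => h2 s t trivial hst, h3⟩

/-- The Cantor set `ℤ_2 × {1, -1}`. -/
abbrev X : Type := {p : ℤ_[2] × ℤ // p.2 = 1 ∨ p.2 = -1}


lemma sgn_smul_mem (g : D) (x : X) : sgn g * x.1.2 = 1 ∨ sgn g * x.1.2 = -1 := by
  rcases sgn_eq g with h | h <;> rcases x.2 with h' | h' <;> rw [h, h'] <;> norm_num

/-- The action of `D` on `X`. -/
noncomputable instance : MulAction D X where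
  smul g x := ⟨((sgn g : ℤ_[2]) * (x.1.1 + (idx g : ℤ_[2])), sgn g * x.1.2), sgn_smul_mem g x⟩
  one_smul x := by
    apply Subtype.ext
    apply Prod.ext
    · show ((sgn 1 : ℤ) : ℤ_[2]) * (x.1.1 + ((idx 1 : ℤ) : ℤ_[2])) = x.1.1
      rw [sgn_one, idx_one]; push_cast; ring
    · show sgn 1 * x.1.2 = x.1.2
      rw [sgn_one, one_mul]
  mul_smul g h x := by
    apply Subtype.ext
    apply Prod.ext
    · show ((sgn (g * h) : ℤ) : ℤ_[2]) * (x.1.1 + ((idx (g * h) : ℤ) : ℤ_[2])) =
        ((sgn g : ℤ) : ℤ_[2]) * (((sgn h : ℤ) : ℤ_[2]) * (x.1.1 + ((idx h : ℤ) : ℤ_[2])) +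
          ((idx g : ℤ) : ℤ_[2]))
      rw [sgn_mul, idx_mul]
      have h2 : ((sgn h : ℤ) : ℤ_[2]) * ((sgn h : ℤ) : ℤ_[2]) = 1 := by
        rw [← Int.cast_mul, sgn_mul_self, Int.cast_one]
      push_cast
      linear_combination ((sgn g : ℤ) : ℤ_[2]) * ((idx g : ℤ) : ℤ_[2]) * h2
    · show sgn (g * h) * x.1.2 = sgn g * (sgn h * x.1.2)
      rw [sgn_mul, mul_assoc]

lemma smul_fst (g : D) (x : X) :
    (g • x).1.1 = (sgn g : ℤ_[2]) * (x.1.1 + (idx g : ℤ_[2])) := rfl

lemma smul_snd (g : D) (x : X) : (g • x).1.2 = sgn g * x.1.2 := rfl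

instance : ContinuousConstSMul D X where
  continuous_const_smul g := by
    refine Continuous.subtype_mk ?_ _
    fun_prop

instance : CompactSpace X := by
  have h : IsCompact {p : ℤ_[2] × ℤ | p.2 = 1 ∨ p.2 = -1} := by
    have : {p : ℤ_[2] × ℤ | p.2 = 1 ∨ p.2 = -1} = Set.univ ×ˢ ({1, -1} : Set ℤ) := by
      ext p
      simp
    rw [this]
    exact isCompact_univ.prod (Set.toFinite _).isCompact
  exact isCompact_iff_compactSpace.1 h

noncomputable instance : MeasurableSpace X := borel X

instance : BorelSpace X := ⟨rfl⟩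

lemma free (g : D) (x : X) (h : g • x = x) : g = 1 := by
  have h1 := congrArg (fun y : X => y.1.2) h
  have h2 := congrArg (fun y : X => y.1.1) h
  simp only [smul_fst, smul_snd] at h1 h2
  have hx : x.1.2 ≠ 0 := by rcases x.2 with h | h <;> rw [h] <;> norm_num
  have h3 : sgn g = 1 := by
    have : (sgn g - 1) * x.1.2 = 0 := by linear_combination h1
    rcases mul_eq_zero.1 this with h | h
    · omega
    · exact absurd h hx
  rw [h3] at h2
  refine eq_one_of ?_ h3
  have : ((idx g : ℤ) : ℤ_[2]) = 0 := by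
    push_cast at h2
    linear_combination h2
  exact_mod_cast this

lemma minimal (x : X) : Dense (MulAction.orbit D x) := by
  rw [Metric.dense_iff]
  intro y r hr
  -- find the sign
  obtain ⟨s, hs⟩ : ∃ s : D, sgn s * x.1.2 = y.1.2 := by
    rcases x.2 with h | h <;> rcases y.2 with h' | h' <;> rw [h, h']
    · exact ⟨.r 0, rfl⟩
    · exact ⟨.sr 0, rfl⟩
    · exact ⟨.sr 0, rfl⟩
    · exact ⟨.r 0, rfl⟩
  obtain ⟨n, hn⟩ := PadicInt.denseRange_intCast.exists_dist_lt
    ((sgn s : ℤ_[2]) * y.1.1 - x.1.1) hr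
  have hg : ∃ g : D, sgn g = sgn s ∧ idx g = n := by
    rcases s with i | i
    · exact ⟨.r n, rfl, rfl⟩
    · exact ⟨.sr n, rfl, rfl⟩
  obtain ⟨g, hg1, hg2⟩ := hg
  refine ⟨g • x, ?_, MulAction.mem_orbit _ _⟩
  rw [Metric.mem_ball, Subtype.dist_eq, Prod.dist_eq, smul_fst, smul_snd, hg1, hg2, hs, dist_self,
    max_lt_iff]
  refine ⟨?_, hr⟩
  have h2 : ((sgn s : ℤ) : ℤ_[2]) * ((sgn s : ℤ) : ℤ_[2]) = 1 := by
    rw [← Int.cast_mul, sgn_mul_self, Int.cast_one]
  have h3 : ‖((sgn s : ℤ) : ℤ_[2])‖ = 1 := by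
    rcases sgn_eq s with h | h <;> rw [h] <;> simp
  rw [dist_eq_norm] at hn ⊢
  have : ((sgn s : ℤ) : ℤ_[2]) * (x.1.1 + (n : ℤ_[2])) - y.1.1 =
      - (((sgn s : ℤ) : ℤ_[2]) * (((sgn s : ℤ) : ℤ_[2]) * y.1.1 - x.1.1 - n)) := by
    linear_combination (y.1.1) * h2
  rw [this, norm_neg, norm_mul, h3, one_mul]
  exact hn


section General

variable {G M : Type} [Group G] [TopologicalSpace M] [MulAction G M]

lemma IsCocycle.map_one {c : G → C(M, ℝ)} (hc : IsCocycle c) (x : M) : c 1 x = 0 := by
  have h := hc 1 1 x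
  rw [mul_one, one_smul] at h
  linarith

lemma IsCocycle.map_inv {c : G → C(M, ℝ)} (hc : IsCocycle c) (g : G) (x : M) :
    c g⁻¹ x = - c g (g⁻¹ • x) := by
  have h := hc g g⁻¹ x
  rw [mul_inv_cancel, hc.map_one] at h
  linarith

lemma isCocycle_coboundary [ContinuousConstSMul G M] (u : C(M, ℝ)) :
    IsCocycle (coboundary (G := G) u) := by
  intro g h x
  show u ((g * h) • x) - u x = (u (g • h • x) - u (h • x)) + (u (h • x) - u x)
  rw [mul_smul]
  ring

lemma IsCocycle.sub {c d : G → C(M, ℝ)} (hc : IsCocycle c) (hd : IsCocycle d) :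
    IsCocycle (fun g => c g - d g) := by
  intro g h x
  simp only [ContinuousMap.sub_apply, hc g h x, hd g h x]
  ring

lemma word_bound (S : Set G) (g : G) (hg : g ∈ Subgroup.closure S) :
    ∃ L : ℕ, ∀ d : G → C(M, ℝ), IsCocycle d → ∀ ε : ℝ, 0 ≤ ε → (∀ s ∈ S, ∀ x, |d s x| ≤ ε) →
      ∀ x, |d g x| ≤ L * ε := by
  induction hg using Subgroup.closure_induction with
  | mem g hg => exact ⟨1, fun d _ ε _ h x => by simpa using h g hg x⟩
  | one => exact ⟨0, fun d hd ε _ _ x => by simp [hd.map_one]⟩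
  | mul g h _ _ ih1 ih2 =>
    obtain ⟨L1, h1⟩ := ih1
    obtain ⟨L2, h2⟩ := ih2
    refine ⟨L1 + L2, fun d hd ε hε hS x => ?_⟩
    rw [hd g h x]
    push_cast
    rw [add_mul]
    exact (abs_add_le _ _).trans (add_le_add (h1 d hd ε hε hS _) (h2 d hd ε hε hS _))
  | inv g _ ih =>
    obtain ⟨L, h⟩ := ih
    refine ⟨L, fun d hd ε hε hS x => ?_⟩
    rw [hd.map_inv, abs_neg]
    exact h d hd ε hε hS _

lemma IsCocycle.pow_bound {d : G → C(M, ℝ)} (hd : IsCocycle d) (g : G) (K : ℝ)
    (h : ∀ x, |d g x| ≤ K) (n : ℕ) (x : M) : |d (g ^ n) x| ≤ n * K := by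
  induction n generalizing x with
  | zero => simp [hd.map_one]
  | succ n ih =>
    rw [pow_succ', hd g (g ^ n) x]
    push_cast
    have := (abs_add_le (d g (g ^ n • x)) (d (g ^ n) x)).trans (add_le_add (h _) (ih x))
    linarith

end General

/-- The cocycle `c(g,x) = idx g * sign x`. -/
noncomputable def coc (g : D) : C(X, ℝ) where
  toFun x := (idx g : ℝ) * (x.1.2 : ℝ)
  continuous_toFun := by
    have : Continuous (fun x : X => ((x.1.2 : ℤ) : ℝ)) :=
      (continuous_of_discreteTopology (f := fun n : ℤ => (n : ℝ))).comp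
        (continuous_snd.comp continuous_subtype_val)
    exact continuous_const.mul this

lemma coc_apply (g : D) (x : X) : coc g x = (idx g : ℝ) * (x.1.2 : ℝ) := rfl

lemma isCocycle_coc : IsCocycle coc := by
  intro g h x
  rw [coc_apply, coc_apply, coc_apply, smul_snd, idx_mul]
  push_cast
  ring

lemma idx_r_one_pow (n : ℕ) : idx ((DihedralGroup.r 1 : D) ^ n) = n := by
  induction n with
  | zero => rfl
  | succ n ih =>
    rw [pow_succ, idx_mul, ih]
    show (1 : ℤ) + 1 * (n : ℤ) = ((n + 1 : ℕ) : ℤ)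
    push_cast
    ring

lemma mean_zero (μ : Measure X) [IsProbabilityMeasure μ]
    (hμ : ∀ g : D, μ.map (fun x => g • x) = μ) (g : D) : ∫ x, coc g x ∂μ = 0 := by
  have h1 : ∫ x : X, (x.1.2 : ℝ) ∂μ = 0 := by
    have hm : Measurable (fun x : X => (DihedralGroup.sr 0 : D) • x) :=
      (continuous_const_smul _).measurable
    have hc : Continuous (fun x : X => ((x.1.2 : ℤ) : ℝ)) :=
      (continuous_of_discreteTopology (f := fun n : ℤ => (n : ℝ))).comp
        (continuous_snd.comp continuous_subtype_val)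
    have h := integral_map (μ := μ) hm.aemeasurable
      (f := fun x : X => ((x.1.2 : ℤ) : ℝ)) hc.aestronglyMeasurable
    rw [hμ] at h
    have h3 : ∀ x : X, ((((DihedralGroup.sr 0 : D) • x).1.2 : ℤ) : ℝ) = - ((x.1.2 : ℤ) : ℝ) := by
      intro x
      rw [smul_snd]
      show (((-1 : ℤ) * x.1.2 : ℤ) : ℝ) = _
      push_cast
      ring
    simp only [h3, integral_neg] at h
    linarith
  simp only [coc_apply]
  rw [integral_const_mul, h1, mul_zero]

lemma not_inClosure (S : Finset D) (hS : Subgroup.closure (S : Set D) = ⊤) :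
    ¬ InClosureOfCoboundaries S coc := by
  intro h
  obtain ⟨L, hL⟩ := word_bound (M := X) (S : Set D) (DihedralGroup.r 1) (by rw [hS]; trivial)
  obtain ⟨u, hu⟩ := h (1 / (2 * (L + 1))) (by positivity)
  set d : D → C(X, ℝ) := fun g => coc g - coboundary u g with hd
  have hdc : IsCocycle d := isCocycle_coc.sub (isCocycle_coboundary u)
  have hd1 : ∀ x, |d (DihedralGroup.r 1) x| ≤ 1 / 2 := by
    intro x
    have h1 := hL d hdc (1 / (2 * (L + 1))) (by positivity)
      (fun s hs x => ((d s).norm_coe_le_norm x).trans (hu s hs).le) x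
    refine h1.trans ?_
    rw [mul_one_div, div_le_div_iff₀ (by positivity) (by norm_num)]
    linarith
  let x : X := ⟨(0, 1), Or.inl rfl⟩
  obtain ⟨n, hn⟩ := exists_nat_gt (4 * ‖u‖)
  have h2 := hdc.pow_bound _ _ hd1 n x
  have h3 : d (DihedralGroup.r 1 ^ n) x = n - (u ((DihedralGroup.r 1 : D) ^ n • x) - u x) := by
    show coc _ x - (u _ - u x) = _
    rw [coc_apply, idx_r_one_pow]
    show ((n : ℤ) : ℝ) * ((1 : ℤ) : ℝ) - _ = _
    push_cast
    ring
  rw [h3] at h2
  have h4 := u.norm_coe_le_norm ((DihedralGroup.r 1 : D) ^ n • x)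
  have h5 := u.norm_coe_le_norm x
  rw [Real.norm_eq_abs] at h4 h5
  have h6 := abs_le.1 h2
  have h7 := abs_le.1 h4
  have h8 := abs_le.1 h5
  linarith [h6.2, h7.2, h8.1]

/-- There are a finitely generated amenable group `G`, an infinite compact metric space `M`,
a free and minimal action of `G` on `M` by homeomorphisms and a continuous real cocycle `c`
with zero mean for every invariant probability measure, such that `c` is not in the closure
of the coboundaries. -/
theorem result :
    ∃ (G : Type) (_ : Group G) (M : Type) (_ : MetricSpace M) (_ : CompactSpace M)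
      (_ : MeasurableSpace M) (_ : BorelSpace M) (_ : MulAction G M)
      (_ : ContinuousConstSMul G M),
      Group.FG G ∧ IsAmenable G ∧
      Infinite M ∧ (∀ (g : G) (x : M), g • x = x → g = 1) ∧
      (∀ x : M, Dense (MulAction.orbit G x)) ∧
      ∃ c : G → C(M, ℝ), IsCocycle c ∧
        (∀ μ : Measure M, IsProbabilityMeasure μ → (∀ g : G, μ.map (fun x => g • x) = μ) →
          ∀ g : G, ∫ x, c g x ∂μ = 0) ∧
        ∀ S : Finset G, Subgroup.closure (S : Set G) = ⊤ → ¬ InClosureOfCoboundaries S c := by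
  refine ⟨D, inferInstance, X, inferInstance, inferInstance, inferInstance, inferInstance,
    inferInstance, inferInstance, ?_, isAmenable_D, ?_, free, minimal, coc, isCocycle_coc,
    fun μ _ hμ g => mean_zero μ hμ g, not_inClosure⟩
  · refine ⟨⟨{DihedralGroup.r 1, DihedralGroup.sr 0}, ?_⟩⟩
    rw [eq_top_iff]
    have h1 : ∀ i : ℤ, (DihedralGroup.r (i : ZMod 0) : D) ∈
        Subgroup.closure (({DihedralGroup.r 1, DihedralGroup.sr 0} : Finset D) : Set D) := by
      intro i
      have : (DihedralGroup.r (i : ZMod 0) : D) = (DihedralGroup.r 1) ^ i := by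
        rw [DihedralGroup.r_one_zpow]; rfl
      rw [this]
      exact Subgroup.zpow_mem _ (Subgroup.subset_closure (by simp)) _
    have h2 : (DihedralGroup.sr 0 : D) ∈
        Subgroup.closure (({DihedralGroup.r 1, DihedralGroup.sr 0} : Finset D) : Set D) :=
      Subgroup.subset_closure (by simp)
    rintro (i | i) -
    · exact h1 i
    · have : (DihedralGroup.sr i : D) = DihedralGroup.sr 0 * DihedralGroup.r i := by
        rw [DihedralGroup.sr_mul_r, zero_add]
      rw [this]
      exact Subgroup.mul_mem _ h2 (h1 i)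
  · have : Function.Injective (fun g : D => g • (⟨(0, 1), Or.inl rfl⟩ : X)) := by
      intro g h hgh
      have h1 : (h⁻¹ * g) • (⟨(0, 1), Or.inl rfl⟩ : X) = ⟨(0, 1), Or.inl rfl⟩ := by
        rw [mul_smul]
        simp only at hgh
        rw [hgh, inv_smul_smul]
      have h2 := free _ _ h1
      exact (inv_mul_eq_one.1 h2).symm
    exact Infinite.of_injective _ this

end Pool.Agent.Results.MP_d52620_an.DihedralCounterexample

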